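import Mathlib


namespace Pool.Agent.Results.MP_054fa1_nt.AlmostAllIndices

open Finset

/-- `a(n) = Im ∏_{k=0}^{n} (1 + k i)`, computed in the Gaussian integers. -/
def a (n : ℕ) : ℤ := (∏ k ∈ Finset.range (n + 1), (⟨1, (k : ℤ)⟩ : GaussianInt)).im

theorem nonarch_sub {p : ℕ} [Fact p.Prime] (x y : ℤ_[p]) : ‖x - y‖ ≤ max ‖x‖ ‖y‖ := by
  rw [sub_eq_add_neg, ← norm_neg y]; exact PadicInt.nonarchimedean _ _

/-! ### the p-adic square root of -1 -/

theorem exists_iota (p : ℕ) [hp : Fact p.Prime] (h4 : p % 4 = 1) : ∃ ι : ℤ_[p], ι * ι = -1 := by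
  have h1 : IsSquare (-1 : ZMod p) := by
    rw [ZMod.exists_sq_eq_neg_one_iff]; omega
  obtain ⟨t, ht⟩ := h1
  have hdvd : (p : ℤ) ∣ ((t.val : ℤ) ^ 2 + 1) := by
    rw [← ZMod.intCast_zmod_eq_zero_iff_dvd]
    push_cast
    rw [ZMod.natCast_zmod_val]
    rw [pow_two, ← ht]; ring
  have hcop : ¬ (p : ℤ) ∣ (2 * (t.val : ℤ)) := by
    intro h
    have hpp : Prime (p : ℤ) := Nat.prime_iff_prime_int.mp hp.out
    rcases hpp.dvd_or_dvd h with h | h
    · have := Int.le_of_dvd (by norm_num) h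
      have h2 := hp.out.two_le
      have : p = 2 := by omega
      omega
    · have h3 : (p : ℤ) ∣ 1 := by
        have := dvd_sub hdvd (dvd_pow h (two_ne_zero))
        simpa using this
      have := Int.le_of_dvd (by norm_num) h3
      have h2 := hp.out.two_le
      omega
  have key := hensels_lemma (p := p) (R := ℤ) (F := (Polynomial.X ^ 2 + 1 : Polynomial ℤ))
    (a := ((t.val : ℤ) : ℤ_[p])) (by
      have e1 : (Polynomial.aeval (((t.val : ℤ) : ℤ_[p]))) (Polynomial.X ^ 2 + 1 : Polynomial ℤ)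
          = (((t.val : ℤ) ^ 2 + 1 : ℤ) : ℤ_[p]) := by
        simp
      have e2 : (Polynomial.aeval (((t.val : ℤ) : ℤ_[p])))
          (Polynomial.derivative (Polynomial.X ^ 2 + 1 : Polynomial ℤ))
          = ((2 * (t.val : ℤ) : ℤ) : ℤ_[p]) := by
        rw [show (Polynomial.derivative (Polynomial.X ^ 2 + 1 : Polynomial ℤ))
          = Polynomial.C 2 * Polynomial.X by
            simp [Polynomial.derivative_X_pow]]
        simp
        left
        exact map_ofNat _ 2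
      rw [e1, e2]
      have n1 : ‖(((t.val : ℤ) ^ 2 + 1 : ℤ) : ℤ_[p])‖ < 1 :=
        (PadicInt.norm_int_lt_one_iff_dvd _).mpr hdvd
      have n2 : ‖((2 * (t.val : ℤ) : ℤ) : ℤ_[p])‖ = 1 := by
        have h3 : ¬ ‖((2 * (t.val : ℤ) : ℤ) : ℤ_[p])‖ < 1 := fun h =>
          hcop ((PadicInt.norm_int_lt_one_iff_dvd _).mp h)
        exact le_antisymm (PadicInt.norm_le_one _) (not_lt.mp h3)
      rw [n2]; simpa using n1)
  obtain ⟨z, hz, -⟩ := key
  refine ⟨z, ?_⟩
  have : z ^ 2 + 1 = 0 := by simpa using hz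
  linear_combination this

/-- size of the error term -/
def J (p n : ℕ) : ℕ := Nat.log p (n ^ 2 + 1) + 1

theorem norm_unit_of_sq {p : ℕ} [hp : Fact p.Prime] {ι : ℤ_[p]} (hι : ι * ι = -1) : ‖ι‖ = 1 := by
  have h : ‖ι‖ * ‖ι‖ = 1 := by rw [← norm_mul, hι]; simp
  have h0 := norm_nonneg ι
  nlinarith [PadicInt.norm_le_one ι]

theorem norm_nat {p : ℕ} [hp : Fact p.Prime] {w : ℕ} (hw : w ≠ 0) :
    ‖(w : ℤ_[p])‖ = (p : ℝ) ^ (-(padicValNat p w : ℤ)) := by
  apply le_antisymm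
  · have := (PadicInt.norm_int_le_pow_iff_dvd (p := p) (k := (w : ℤ)) (n := padicValNat p w)).mpr
      (by exact_mod_cast pow_padicValNat_dvd)
    simpa using this
  · by_contra hcon
    rw [not_le] at hcon
    have h1 : ‖(w : ℤ_[p])‖ ≤ (p : ℝ) ^ (-((padicValNat p w + 1 : ℕ)) : ℤ) := by
      rw [PadicInt.norm_le_pow_iff_norm_lt_pow_add_one]
      rw [show (-((padicValNat p w + 1 : ℕ)) : ℤ) + 1 = -(padicValNat p w : ℤ) by push_cast; ring]
      exact hcon
    have h2 := (PadicInt.norm_int_le_pow_iff_dvd (p := p) (k := (w : ℤ)) (n := padicValNat p w + 1)).mp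
      (by simpa using h1)
    have h3 : p ^ (padicValNat p w + 1) ∣ w := by exact_mod_cast h2
    exact pow_succ_padicValNat_not_dvd hw h3

/-- valuation of `∏_{k=1}^n (1 + kι)` -/
theorem norm_A {p : ℕ} [hp : Fact p.Prime] {ι : ℤ_[p]} (hι : ι * ι = -1) (n : ℕ) :
    ∃ v : ℕ, ‖∏ i ∈ range n, (1 + ((i : ℤ_[p]) + 1) * ι)‖ = (p : ℝ) ^ (-(v : ℤ)) ∧
      padicValNat p n.factorial ≤ v ∧ v ≤ padicValNat p n.factorial + J p n := by
  have hp1 : 1 < p := hp.out.one_lt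
  set T : ℕ := (-ι).appr (J p n) with hT
  have hJ : n ^ 2 + 1 < p ^ (J p n) := Nat.lt_pow_succ_log_self hp1 _
  have hTlt : T < p ^ (J p n) := PadicInt.appr_lt _ _
  have hTspec : ‖-ι - (T : ℤ_[p])‖ ≤ (p : ℝ) ^ (-(J p n : ℕ) : ℤ) := by
    rw [PadicInt.norm_le_pow_iff_mem_span_pow]
    exact PadicInt.appr_spec _ _
  have hterm : ∀ i ∈ range n, ‖1 + ((i : ℤ_[p]) + 1) * ι‖ = ‖((T + 1 + i : ℕ) : ℤ_[p])‖ := by
    intro i hi
    rw [mem_range] at hi
    have e1 : (1 : ℤ_[p]) + ((i : ℤ_[p]) + 1) * ι = ι * (((i : ℤ_[p]) + 1) - ι) := by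
      linear_combination hι
    have e2 : ‖1 + ((i : ℤ_[p]) + 1) * ι‖ = ‖((i : ℤ_[p]) + 1) - ι‖ := by
      rw [e1, norm_mul, norm_unit_of_sq hι, one_mul]
    rw [e2]
    have hbig : (p : ℝ) ^ (-(J p n : ℕ) : ℤ) < ‖((i : ℤ_[p]) + 1) - ι‖ := by
      by_contra hcon
      rw [not_lt] at hcon
      have h1 : ‖((((i : ℤ) + 1) ^ 2 + 1 : ℤ) : ℤ_[p])‖ ≤ (p : ℝ) ^ (-(J p n : ℕ) : ℤ) := by
        have e3 : ((((i : ℤ) + 1) ^ 2 + 1 : ℤ) : ℤ_[p])
            = (((i : ℤ_[p]) + 1) - ι) * (((i : ℤ_[p]) + 1) + ι) := by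
          push_cast; linear_combination hι
        rw [e3, norm_mul]
        calc ‖((i : ℤ_[p]) + 1) - ι‖ * ‖((i : ℤ_[p]) + 1) + ι‖
            ≤ ‖((i : ℤ_[p]) + 1) - ι‖ * 1 :=
              mul_le_mul_of_nonneg_left (PadicInt.norm_le_one _) (norm_nonneg _)
          _ ≤ _ := by rw [mul_one]; exact hcon
      rw [PadicInt.norm_int_le_pow_iff_dvd] at h1
      have h2 := Int.le_of_dvd (by positivity) h1
      have h3 : ((n : ℤ) ^ 2 + 1) < (p : ℤ) ^ (J p n) := by exact_mod_cast hJ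
      have h4 : ((i : ℤ) + 1) ^ 2 ≤ (n : ℤ) ^ 2 := by
        apply pow_le_pow_left₀ (by positivity); exact_mod_cast hi
      linarith
    have e3 : ((T + 1 + i : ℕ) : ℤ_[p]) = (((i : ℤ_[p]) + 1) - ι) + (-(-ι - (T : ℤ_[p]))) := by
      push_cast; ring
    rw [e3, PadicInt.norm_add_eq_max_of_ne, norm_neg, max_eq_left]
    · exact le_trans hTspec hbig.le
    · rw [norm_neg]
      exact ne_of_gt (lt_of_le_of_lt hTspec hbig)
  have hprod : ‖∏ i ∈ range n, (1 + ((i : ℤ_[p]) + 1) * ι)‖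
      = ‖((n.factorial * (T + n).choose n : ℕ) : ℤ_[p])‖ := by
    rw [← Nat.ascFactorial_eq_factorial_mul_choose, Nat.ascFactorial_eq_prod_range]
    push_cast
    rw [norm_prod, norm_prod]
    refine Finset.prod_congr rfl fun i hi => ?_
    rw [hterm i hi]
    push_cast
    rfl
  have hw : n.factorial * (T + n).choose n ≠ 0 :=
    Nat.mul_ne_zero (Nat.factorial_ne_zero _) (Nat.choose_pos (Nat.le_add_left _ _)).ne'
  refine ⟨padicValNat p (n.factorial * (T + n).choose n), ?_, ?_, ?_⟩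
  · rw [hprod]; exact norm_nat hw
  · rw [padicValNat.mul (Nat.factorial_ne_zero _) (Nat.choose_pos (Nat.le_add_left _ _)).ne']
    exact Nat.le_add_right _ _
  · rw [padicValNat.mul (Nat.factorial_ne_zero _) (Nat.choose_pos (Nat.le_add_left _ _)).ne']
    apply Nat.add_le_add_left
    have h1 : padicValNat p ((T + n).choose n) ≤ Nat.log p (T + n) := by
      have := Nat.factorization_choose_le_log (p := p) (n := T + n) (k := n)
      rwa [Nat.factorization_def _ hp.out] at this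
    refine le_trans h1 ?_
    have h2 : T + n < p ^ (J p n + 1) := by
      have h3 : n ≤ n ^ 2 := by nlinarith [Nat.zero_le n, sq_nonneg (n : ℤ), Nat.le_self_pow (two_ne_zero) n]
      have h4 : 2 * p ^ (J p n) ≤ p ^ (J p n + 1) := by
        rw [pow_succ, mul_comm]; exact Nat.mul_le_mul_left _ hp1
      omega
    exact Nat.lt_succ_iff.mp (Nat.log_lt_of_lt_pow' (by omega) h2)

theorem digit_bound {p : ℕ} [hp : Fact p.Prime] (n : ℕ) :
    (n : ℝ) / ((p : ℝ) - 1) - J p n ≤ padicValNat p n.factorial ∧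
      (padicValNat p n.factorial : ℝ) ≤ (n : ℝ) / ((p : ℝ) - 1) := by
  have hp1 : 1 < p := hp.out.one_lt
  have hp0 : (0 : ℝ) < (p : ℝ) - 1 := by
    have : (1 : ℝ) < p := by exact_mod_cast hp1
    linarith
  have hL := sub_one_mul_padicValNat_factorial (p := p) n
  have hds : (p.digits n).sum ≤ n := Nat.digit_sum_le p n
  have hL' : ((p : ℝ) - 1) * padicValNat p n.factorial = (n : ℝ) - (p.digits n).sum := by
    have h1 : (((p - 1) * padicValNat p n.factorial : ℕ) : ℝ) = ((n - (p.digits n).sum : ℕ) : ℝ) := by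
      rw [hL]
    rw [Nat.cast_sub hds] at h1
    rw [← h1]; push_cast [Nat.cast_sub hp1.le]; ring
  have hsum : (p.digits n).sum ≤ (p - 1) * J p n := by
    have h2 : (p.digits n).sum ≤ (p.digits n).length * (p - 1) := by
      rw [← smul_eq_mul]
      apply List.sum_le_card_nsmul
      intro x hx
      have := Nat.digits_lt_base hp1 hx
      omega
    have h3 : (p.digits n).length ≤ J p n := by
      rcases Nat.eq_zero_or_pos n with h0 | h0
      · subst h0; simp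
      · rw [Nat.digits_len p n hp1 h0.ne']
        unfold J
        apply Nat.add_le_add_right
        apply Nat.log_mono_right
        nlinarith
    calc (p.digits n).sum ≤ (p.digits n).length * (p - 1) := h2
      _ ≤ J p n * (p - 1) := Nat.mul_le_mul_right _ h3
      _ = (p - 1) * J p n := mul_comm _ _
  have hsum' : ((p.digits n).sum : ℝ) ≤ ((p : ℝ) - 1) * J p n := by
    have : ((p.digits n).sum : ℝ) ≤ (((p - 1) * J p n : ℕ) : ℝ) := by exact_mod_cast hsum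
    push_cast [Nat.cast_sub hp1.le] at this
    simpa using this
  constructor
  · rw [sub_le_iff_le_add, div_le_iff₀ hp0]
    nlinarith
  · rw [le_div_iff₀ hp0]
    have : (0 : ℝ) ≤ ((p.digits n).sum : ℝ) := by positivity
    nlinarith

/-! ### the Gaussian integer products -/

/-- the two ring homomorphisms `ℤ[i] → ℤ_p` -/
noncomputable def phi {p : ℕ} [Fact p.Prime] (ι : ℤ_[p]) (hι : ι * ι = -1) : GaussianInt →+* ℤ_[p] :=
  Zsqrtd.lift ⟨ι, by rw [hι]; simp⟩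

theorem phi_apply {p : ℕ} [Fact p.Prime] (ι : ℤ_[p]) (hι : ι * ι = -1) (z : GaussianInt) :
    phi ι hι z = (z.re : ℤ_[p]) + (z.im : ℤ_[p]) * ι := by
  simp [phi, Zsqrtd.lift]

/-- `∏_{k=n+1}^{m} (1 + k i)` with `m = n + l` -/
def Pr (n l : ℕ) : GaussianInt := ∏ i ∈ range l, (⟨1, ((n + 1 + i : ℕ) : ℤ)⟩ : GaussianInt)

theorem a_eq (n : ℕ) : a n = (Pr 0 n).im := by
  unfold a Pr
  rw [Finset.prod_range_succ']
  have h1 : (⟨1, ((0 : ℕ) : ℤ)⟩ : GaussianInt) = 1 := by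
    ext <;> simp
  rw [h1, mul_one]
  congr 1
  refine Finset.prod_congr rfl fun i hi => ?_
  ext
  · simp
  · simp [add_comm]

theorem Pr_add (n l : ℕ) : Pr 0 (n + l) = Pr 0 n * Pr n l := by
  unfold Pr
  rw [Finset.prod_range_add]
  congr 1
  refine Finset.prod_congr rfl fun i hi => ?_
  ext
  · simp
  · simp; ring

/-- `∏_{k=n+1}^{n+l} (k - i)` -/
def Qr (n l : ℕ) : GaussianInt := ∏ i ∈ range l, (⟨((n + 1 + i : ℕ) : ℤ), -1⟩ : GaussianInt)

theorem Qr_bounds (n l : ℕ) (hl : l ≤ n) (hn : 0 < n) :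
    0 < (Qr n l).re ∧ (Qr n l).im ≤ 0 ∧ (0 < l → (Qr n l).im < 0) ∧
      -((n : ℤ) * (Qr n l).im) ≤ l * (Qr n l).re := by
  induction l with
  | zero => simp [Qr]
  | succ l ih =>
    obtain ⟨h1, h2, h3, h4⟩ := ih (by omega)
    have hs : Qr n (l + 1) = Qr n l * ⟨((n + 1 + l : ℕ) : ℤ), -1⟩ := by
      unfold Qr; rw [Finset.prod_range_succ]
    rw [hs]
    set x := (Qr n l).re with hx
    set y := (Qr n l).im with hy
    have hre : (Qr n l * ⟨((n + 1 + l : ℕ) : ℤ), -1⟩ : GaussianInt).re = x * (n + 1 + l) + y := by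
      rw [Zsqrtd.re_mul]; push_cast; ring
    have him : (Qr n l * ⟨((n + 1 + l : ℕ) : ℤ), -1⟩ : GaussianInt).im = -x + y * (n + 1 + l) := by
      rw [Zsqrtd.im_mul]; push_cast; ring
    rw [hre, him]
    have hln : (l : ℤ) + 1 ≤ n := by exact_mod_cast hl
    have hn' : (0 : ℤ) < n := by exact_mod_cast hn
    have hl0 : (0 : ℤ) ≤ l := by positivity
    have hyx : -y ≤ x := by
      have : (n : ℤ) * (-y) ≤ n * x := by nlinarith
      exact le_of_mul_le_mul_left this hn'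
    refine ⟨?_, ?_, ?_, ?_⟩
    · nlinarith
    · nlinarith [mul_nonneg hn'.le (neg_nonneg.mpr h2), mul_nonneg hl0 (neg_nonneg.mpr h2)]
    · intro _
      nlinarith [mul_nonneg hn'.le (neg_nonneg.mpr h2), mul_nonneg hl0 (neg_nonneg.mpr h2)]
    · push_cast
      -- n * (x - y k) ≤ (l+1) (x k + y)
      have hk : (0 : ℤ) < n + 1 + l := by positivity
      have e1 : n * (-y * (n + 1 + l)) ≤ l * x * (n + 1 + l) := by nlinarith
      have e2 : ((l : ℤ) + 1) * (-y) ≤ ((l : ℤ) + 1) * x := by nlinarith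
      -- sharper: (l+1)(-y) ≤ (l+1) x
      nlinarith

theorem Pr_Qr (n l : ℕ) : Pr n l = (⟨0, 1⟩ : GaussianInt) ^ l * Qr n l := by
  unfold Pr Qr
  have hc : (⟨0, 1⟩ : GaussianInt) ^ l = ∏ i ∈ range l, (⟨0, 1⟩ : GaussianInt) := by simp
  rw [hc, ← Finset.prod_mul_distrib]
  refine Finset.prod_congr rfl fun i hi => ?_
  ext
  · rw [Zsqrtd.re_mul]; simp
  · rw [Zsqrtd.im_mul]; simp

theorem Pr_im_ne_zero (n l : ℕ) (hl : l ≤ n) (hl0 : 0 < l) : (Pr n l).im ≠ 0 := by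
  obtain ⟨h1, h2, h3, h4⟩ := Qr_bounds n l hl (by omega)
  have h3 := h3 hl0
  have hre : ∀ w : GaussianInt, ((⟨0, 1⟩ : GaussianInt) * w).re = -w.im := by
    intro w; rw [Zsqrtd.re_mul]; ring
  have him : ∀ w : GaussianInt, ((⟨0, 1⟩ : GaussianInt) * w).im = w.re := by
    intro w; rw [Zsqrtd.im_mul]; ring
  have hI : ∀ z : GaussianInt, 0 < z.re → z.im < 0 → ∀ l : ℕ,
      ((⟨0, 1⟩ : GaussianInt) ^ l * z).re ≠ 0 ∧ ((⟨0, 1⟩ : GaussianInt) ^ l * z).im ≠ 0 := by
    intro z hz1 hz2 l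
    induction l with
    | zero => simp; exact ⟨hz1.ne', hz2.ne⟩
    | succ l ih =>
      rw [pow_succ', mul_assoc]
      constructor
      · rw [hre]; exact neg_ne_zero.mpr ih.2
      · rw [him]; exact ih.1
  rw [Pr_Qr]
  exact (hI _ h1 h3 l).2

theorem Pr_norm (n l : ℕ) : ((Pr n l).im) ^ 2 ≤ ((n + l + 1 : ℕ) : ℤ) ^ (2 * l) := by
  have h1 : (Pr n l).norm ≤ ((n + l + 1 : ℕ) : ℤ) ^ (2 * l) := by
    have e : (Pr n l).norm = ∏ i ∈ range l, ((⟨1, ((n + 1 + i : ℕ) : ℤ)⟩ : GaussianInt)).norm := by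
      unfold Pr
      exact map_prod (Zsqrtd.normMonoidHom (d := -1)) _ _
    rw [e, pow_mul]
    calc ∏ i ∈ range l, ((⟨1, ((n + 1 + i : ℕ) : ℤ)⟩ : GaussianInt)).norm
        ≤ ∏ i ∈ range l, (((n + l + 1 : ℕ) : ℤ) ^ 2) := by
          apply Finset.prod_le_prod
          · intro i hi; exact GaussianInt.norm_nonneg _
          · intro i hi
            rw [mem_range] at hi
            rw [Zsqrtd.norm_def]
            push_cast
            have hi' : (i : ℤ) + 1 ≤ l := by exact_mod_cast hi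
            have : (0 : ℤ) ≤ i := by positivity
            have : (0 : ℤ) ≤ n := by positivity
            nlinarith
      _ = _ := by rw [Finset.prod_const, Finset.card_range]
  have h2 : ((Pr n l).im) ^ 2 ≤ (Pr n l).norm := by
    rw [Zsqrtd.norm_def]
    nlinarith [sq_nonneg (Pr n l).re]
  exact le_trans h2 h1

/-! ### the gap principle -/

theorem neg_sq {p : ℕ} [Fact p.Prime] {ι : ℤ_[p]} (hι : ι * ι = -1) : (-ι) * (-ι) = -1 := by
  rw [neg_mul_neg, hι]

theorem phi_diff {p : ℕ} [Fact p.Prime] (ι : ℤ_[p]) (hι : ι * ι = -1) (z : GaussianInt) :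
    phi ι hι z - phi (-ι) (neg_sq hι) z = 2 * ι * (z.im : ℤ_[p]) := by
  rw [phi_apply, phi_apply]; ring

theorem norm_two_iota {p : ℕ} [hp : Fact p.Prime] (h4 : p % 4 = 1) {ι : ℤ_[p]} (hι : ι * ι = -1)
    (c : ℤ) : ‖2 * ι * (c : ℤ_[p])‖ = ‖(c : ℤ_[p])‖ := by
  have h2 : ‖(2 : ℤ_[p])‖ = 1 := by
    have := PadicInt.norm_natCast_eq_one_iff (p := p) (n := 2)
    push_cast at this
    rw [this]
    rw [Nat.coprime_primes hp.out Nat.prime_two]
    intro h; rw [h] at h4; norm_num at h4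
  rw [norm_mul, norm_mul, h2, norm_unit_of_sq hι]; simp

theorem phi_Pr {p : ℕ} [Fact p.Prime] (ι : ℤ_[p]) (hι : ι * ι = -1) (n : ℕ) :
    phi ι hι (Pr 0 n) = ∏ i ∈ range n, (1 + ((i : ℤ_[p]) + 1) * ι) := by
  unfold Pr
  rw [map_prod]
  refine Finset.prod_congr rfl fun i hi => ?_
  rw [phi_apply]
  push_cast
  ring

theorem A_val {p : ℕ} [hp : Fact p.Prime] (ι : ℤ_[p]) (hι : ι * ι = -1) (n : ℕ) :
    ∃ v : ℕ, ‖phi ι hι (Pr 0 n)‖ = (p : ℝ) ^ (-(v : ℤ)) ∧
      (n : ℝ) / ((p : ℝ) - 1) - J p n ≤ v ∧ (v : ℝ) ≤ (n : ℝ) / ((p : ℝ) - 1) + J p n := by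
  obtain ⟨v, h1, h2, h3⟩ := norm_A hι n
  obtain ⟨h4, h5⟩ := digit_bound (p := p) n
  refine ⟨v, by rw [phi_Pr]; exact h1, ?_, ?_⟩
  · have : (padicValNat p n.factorial : ℝ) ≤ v := by exact_mod_cast h2
    linarith
  · have : (v : ℝ) ≤ padicValNat p n.factorial + J p n := by exact_mod_cast h3
    linarith

theorem lower_val {p : ℕ} [hp : Fact p.Prime] (h4 : p % 4 = 1) (n : ℕ) (hn : a n ≠ 0) :
    (n : ℝ) / ((p : ℝ) - 1) - J p n ≤ padicValInt p (a n) := by
  obtain ⟨ι, hι⟩ := exists_iota p h4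
  obtain ⟨v, hv1, hv2, hv3⟩ := A_val ι hι n
  obtain ⟨w, hw1, hw2, hw3⟩ := A_val (-ι) (neg_sq hι) n
  have hp1 : (1 : ℝ) < p := by exact_mod_cast hp.out.one_lt
  have h1 : ‖(a n : ℤ_[p])‖ ≤ (p : ℝ) ^ (-((min v w : ℕ) : ℤ)) := by
    rw [← norm_two_iota h4 hι, a_eq, ← phi_diff ι hι]
    refine le_trans (nonarch_sub _ _) ?_
    rw [hv1, hw1]
    apply max_le
    · apply zpow_le_zpow_right₀ hp1.le
      have := min_le_left v w
      omega
    · apply zpow_le_zpow_right₀ hp1.le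
      have := min_le_right v w
      omega
  rw [PadicInt.norm_int_le_pow_iff_dvd, padicValInt_dvd_iff] at h1
  rcases h1 with h1 | h1
  · exact absurd h1 hn
  · have h2 : ((min v w : ℕ) : ℝ) ≤ padicValInt p (a n) := by exact_mod_cast h1
    refine le_trans ?_ h2
    rw [Nat.cast_min]
    exact le_min hv2 hw2

theorem bad_norm {p : ℕ} [hp : Fact p.Prime] (h4 : p % 4 = 1) (n : ℕ) (G : ℝ)
    (hG : (J p n : ℝ) < G) (hbad : G ≤ |(padicValInt p (a n) : ℝ) - (n : ℝ) / ((p : ℝ) - 1)|)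
    (s : ℕ) (hs : (s : ℝ) ≤ (n : ℝ) / ((p : ℝ) - 1) + G) :
    ‖(a n : ℤ_[p])‖ ≤ (p : ℝ) ^ (-(s : ℤ)) := by
  by_cases hn : a n = 0
  · rw [hn]
    simp only [Int.cast_zero, norm_zero]
    positivity
  · have h1 := lower_val h4 n hn
    have h2 : (n : ℝ) / ((p : ℝ) - 1) + G ≤ padicValInt p (a n) := by
      rcases le_abs.mp hbad with h | h <;> linarith
    rw [PadicInt.norm_int_le_pow_iff_dvd, padicValInt_dvd_iff]
    right
    have : (s : ℝ) ≤ padicValInt p (a n) := by linarith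
    exact_mod_cast this

theorem gap {p : ℕ} [hp : Fact p.Prime] (h4 : p % 4 = 1) (n l : ℕ) (hl0 : 0 < l) (hl : l ≤ n)
    (G : ℝ) (hG : (J p n : ℝ) < G) (hG' : (J p (n + l) : ℝ) < G)
    (hbad : G ≤ |(padicValInt p (a n) : ℝ) - (n : ℝ) / ((p : ℝ) - 1)|)
    (hbad' : G ≤ |(padicValInt p (a (n + l)) : ℝ) - ((n + l : ℕ) : ℝ) / ((p : ℝ) - 1)|) :
    (G - 1 - J p n) * Real.log p ≤ l * Real.log (n + l + 1) := by
  have hp1 : (1 : ℝ) < p := by exact_mod_cast hp.out.one_lt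
  have hp0 : (0 : ℝ) < (p : ℝ) - 1 := by linarith
  obtain ⟨ι, hι⟩ := exists_iota p h4
  obtain ⟨v, hv1, hv2, hv3⟩ := A_val ι hι n
  set s : ℕ := ⌊(n : ℝ) / ((p : ℝ) - 1) + G⌋₊ with hs
  have hG0 : 0 ≤ G := le_trans (by positivity) hG.le
  have hs1 : (s : ℝ) ≤ (n : ℝ) / ((p : ℝ) - 1) + G := Nat.floor_le (by positivity)
  have hs2 : (n : ℝ) / ((p : ℝ) - 1) + G < s + 1 := Nat.lt_floor_add_one _
  have hs3 : (s : ℝ) ≤ ((n + l : ℕ) : ℝ) / ((p : ℝ) - 1) + G := by
    have : (n : ℝ) / ((p : ℝ) - 1) ≤ ((n + l : ℕ) : ℝ) / ((p : ℝ) - 1) := by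
      apply div_le_div_of_nonneg_right _ hp0.le
      push_cast
      have : (0 : ℝ) ≤ l := by positivity
      linarith
    linarith
  have b1 := bad_norm h4 n G hG hbad s hs1
  have b2 := bad_norm h4 (n + l) G hG' hbad' s hs3
  set c : ℤ := (Pr n l).im with hc
  have hc0 : c ≠ 0 := Pr_im_ne_zero n l hl hl0
  have key : phi ι hι (Pr 0 n) * (2 * ι * (c : ℤ_[p]))
      = 2 * ι * ((a (n + l) : ℤ) : ℤ_[p])
        - (2 * ι * ((a n : ℤ) : ℤ_[p])) * phi (-ι) (neg_sq hι) (Pr n l) := by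
    rw [hc, a_eq, a_eq, ← phi_diff ι hι, ← phi_diff ι hι, ← phi_diff ι hι, Pr_add, map_mul, map_mul]
    ring
  have hnorm : (p : ℝ) ^ (-(v : ℤ)) * ‖(c : ℤ_[p])‖ ≤ (p : ℝ) ^ (-(s : ℤ)) := by
    rw [← hv1, ← norm_two_iota h4 hι c, ← norm_mul, key]
    refine le_trans (nonarch_sub _ _) ?_
    apply max_le
    · rw [norm_two_iota h4 hι]; exact b2
    · rw [norm_mul, norm_two_iota h4 hι]
      calc ‖((a n : ℤ) : ℤ_[p])‖ * ‖phi (-ι) (neg_sq hι) (Pr n l)‖ ≤ ‖((a n : ℤ) : ℤ_[p])‖ * 1 :=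
            mul_le_mul_of_nonneg_left (PadicInt.norm_le_one _) (norm_nonneg _)
        _ ≤ _ := by rw [mul_one]; exact b1
  have hcn : ‖(c : ℤ_[p])‖ ≤ (p : ℝ) ^ (-((s - v : ℕ) : ℤ)) := by
    by_cases hsv : v ≤ s
    · have hpos : (0 : ℝ) < (p : ℝ) ^ (v : ℤ) := by positivity
      calc ‖(c : ℤ_[p])‖ = (p : ℝ) ^ (v : ℤ) * ((p : ℝ) ^ (-(v : ℤ)) * ‖(c : ℤ_[p])‖) := by
            rw [← mul_assoc, ← zpow_add₀ (by positivity)]; simp
        _ ≤ (p : ℝ) ^ (v : ℤ) * (p : ℝ) ^ (-(s : ℤ)) := mul_le_mul_of_nonneg_left hnorm hpos.le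
        _ = _ := by
            rw [← zpow_add₀ (by positivity)]
            congr 1
            push_cast [Nat.cast_sub hsv]; ring
    · rw [Nat.sub_eq_zero_of_le (by omega)]
      simpa using PadicInt.norm_le_one _
  rw [PadicInt.norm_int_le_pow_iff_dvd] at hcn
  have hle : (p : ℤ) ^ (s - v) ≤ |c| := by
    have h1 : (p : ℤ) ^ (s - v) ∣ |c| := (dvd_abs _ _).mpr hcn
    exact Int.le_of_dvd (abs_pos.mpr hc0) h1
  have hsq : ((p : ℤ) ^ (s - v)) ^ 2 ≤ ((n + l + 1 : ℕ) : ℤ) ^ (2 * l) := by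
    calc ((p : ℤ) ^ (s - v)) ^ 2 ≤ |c| ^ 2 := pow_le_pow_left₀ (by positivity) hle 2
      _ = c ^ 2 := sq_abs c
      _ ≤ _ := Pr_norm n l
  have hsqR : ((p : ℝ) ^ (s - v)) ^ 2 ≤ ((n : ℝ) + l + 1) ^ (2 * l) := by
    have : ((((p : ℤ) ^ (s - v)) ^ 2 : ℤ) : ℝ) ≤ ((((n + l + 1 : ℕ) : ℤ) ^ (2 * l) : ℤ) : ℝ) := by
      exact_mod_cast hsq
    push_cast at this
    exact this
  have hlog := Real.log_le_log (by positivity) hsqR
  rw [Real.log_pow, Real.log_pow, Real.log_pow] at hlog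
  push_cast at hlog
  have hlogp : 0 ≤ Real.log p := Real.log_nonneg hp1.le
  have hg : G - 1 - J p n ≤ ((s - v : ℕ) : ℝ) := by
    have : (s : ℝ) - v ≤ ((s - v : ℕ) : ℝ) := by
      have : s ≤ (s - v) + v := by omega
      have : (s : ℝ) ≤ ((s - v : ℕ) : ℝ) + v := by exact_mod_cast this
      linarith
    linarith
  have := mul_le_mul_of_nonneg_right hg hlogp
  linarith

/-! ### counting -/

theorem card_of_gap (M : ℕ) (δ : ℝ) (hδ : 0 < δ) (T : Finset ℕ) (hT : ∀ n ∈ T, M ≤ n ∧ n < 2 * M)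
    (hgap : ∀ n ∈ T, ∀ m ∈ T, n < m → δ ≤ (m : ℝ) - n) : (T.card : ℝ) ≤ 1 + M / δ := by
  have h1 : T.card ≤ (range (⌊(M : ℝ) / δ⌋₊ + 1)).card := by
    apply Finset.card_le_card_of_injOn (fun n : ℕ => ⌊((n : ℝ) - M) / δ⌋₊)
    · intro n hn
      simp only [Finset.coe_range, Set.mem_Iio]
      apply Nat.lt_succ_of_le
      apply Nat.floor_le_floor
      apply div_le_div_of_nonneg_right _ hδ.le
      have := (hT n hn).2
      have : (n : ℝ) < 2 * M := by exact_mod_cast this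
      linarith
    · have key : ∀ n ∈ T, ∀ m ∈ T, n < m → ⌊((n : ℝ) - M) / δ⌋₊ ≠ ⌊((m : ℝ) - M) / δ⌋₊ := by
        intro n hn m hm hnm heq
        have h2 := hgap n hn m hm hnm
        have hn0 : (0 : ℝ) ≤ ((n : ℝ) - M) / δ := by
          apply div_nonneg _ hδ.le
          have : (M : ℝ) ≤ n := by exact_mod_cast (hT n hn).1
          linarith
        have hm0 : (0 : ℝ) ≤ ((m : ℝ) - M) / δ := by
          apply div_nonneg _ hδ.le
          have : (M : ℝ) ≤ m := by exact_mod_cast (hT m hm).1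
          linarith
        have h3 := Nat.floor_le hn0
        have h4 := Nat.lt_floor_add_one (((m : ℝ) - M) / δ)
        rw [← heq] at h4
        have h5 : ((m : ℝ) - M) / δ - ((n : ℝ) - M) / δ < 1 := by linarith
        rw [← sub_div, div_lt_one hδ] at h5
        linarith
      intro n hn m hm heq
      simp only at heq
      rcases lt_trichotomy n m with h | h | h
      · exact absurd heq (key n hn m hm h)
      · exact h
      · exact absurd heq.symm (key m hm n hn h)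
  rw [Finset.card_range] at h1
  have h2 : (⌊(M : ℝ) / δ⌋₊ : ℝ) ≤ M / δ := Nat.floor_le (by positivity)
  have h3 : (T.card : ℝ) ≤ (⌊(M : ℝ) / δ⌋₊ : ℝ) + 1 := by exact_mod_cast h1
  linarith

theorem log_p_ge_one {p : ℕ} [hp : Fact p.Prime] (h4 : p % 4 = 1) : 1 ≤ Real.log p := by
  have h5 : 3 ≤ p := by
    have := hp.out.two_le
    omega
  have h6 : (3 : ℝ) ≤ p := by exact_mod_cast h5
  rw [Real.le_log_iff_exp_le (by linarith)]
  linarith [Real.exp_one_lt_d9]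

theorem J_le {p : ℕ} [hp : Fact p.Prime] (h4 : p % 4 = 1) (n : ℕ) (X : ℝ) (hX : (n : ℝ) + 1 ≤ X) :
    (J p n : ℝ) ≤ 2 * Real.log X + 1 := by
  have hlp := log_p_ge_one (p := p) h4
  have hp1 : 1 < p := hp.out.one_lt
  unfold J
  push_cast
  have h1 : p ^ (Nat.log p (n ^ 2 + 1)) ≤ n ^ 2 + 1 := Nat.pow_log_le_self p (by positivity)
  have h2 : ((p : ℝ)) ^ (Nat.log p (n ^ 2 + 1)) ≤ X ^ 2 := by
    have h3 : ((p : ℝ)) ^ (Nat.log p (n ^ 2 + 1)) ≤ (n : ℝ) ^ 2 + 1 := by exact_mod_cast h1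
    have hn0 : (0 : ℝ) ≤ n := by positivity
    nlinarith
  have hp0 : (0 : ℝ) < p := by positivity
  have h3 := Real.log_le_log (by positivity) h2
  rw [Real.log_pow, Real.log_pow] at h3
  push_cast at h3
  have h4 : ((Nat.log p (n ^ 2 + 1) : ℕ) : ℝ) ≤ (Nat.log p (n ^ 2 + 1) : ℕ) * Real.log p := by
    have : (0 : ℝ) ≤ ((Nat.log p (n ^ 2 + 1) : ℕ) : ℝ) := by positivity
    nlinarith
  linarith

/-- the set of indices in `[M, 2M)` where `ν_p(a(n))` is at distance at least `G` from `n/(p-1)` -/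
noncomputable def badSet (p M : ℕ) (G : ℝ) : Finset ℕ := by
  classical
  exact (Finset.Ico M (2 * M)).filter
    (fun n => G ≤ |(padicValInt p (a n) : ℝ) - (n : ℝ) / ((p : ℝ) - 1)|)

theorem block {p : ℕ} [hp : Fact p.Prime] (h4 : p % 4 = 1) (M : ℕ) (hM : 1 ≤ M) (G : ℝ)
    (hG : 4 * Real.log (2 * M) + 4 ≤ G) :
    ((badSet p M G).card : ℝ) ≤ 1 + 2 * M * Real.log (2 * M) / G := by
  classical
  have hlp := log_p_ge_one (p := p) h4
  have hM1 : (1 : ℝ) ≤ M := by exact_mod_cast hM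
  have hlog : 0 < Real.log (2 * M) := Real.log_pos (by linarith)
  have hG0 : 0 < G := by linarith
  have hJ : ∀ n, n < 2 * M → (J p n : ℝ) ≤ 2 * Real.log (2 * M) + 1 := by
    intro n hn
    apply J_le h4
    have : ((n + 1 : ℕ) : ℝ) ≤ ((2 * M : ℕ) : ℝ) := by exact_mod_cast hn
    push_cast at this
    exact this
  have h1 := card_of_gap M (G / (2 * Real.log (2 * M))) (by positivity) (badSet p M G)
    (by
      intro n hn
      unfold badSet at hn
      rw [Finset.mem_filter, Finset.mem_Ico] at hn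
      exact hn.1)
    (by
      intro n hn m hm hnm
      unfold badSet at hn hm
      rw [Finset.mem_filter, Finset.mem_Ico] at hn hm
      obtain ⟨⟨hn1, hn2⟩, hn3⟩ := hn
      obtain ⟨⟨hm1, hm2⟩, hm3⟩ := hm
      obtain ⟨l, rfl⟩ := Nat.exists_eq_add_of_lt hnm
      have hJn := hJ n hn2
      have hJm := hJ _ hm2
      have g := gap h4 n (l + 1) (by omega) (by omega) G (by linarith)
        (by rw [← add_assoc]; linarith) hn3 (by rw [← add_assoc]; exact hm3)
      have hle : Real.log ((n : ℝ) + ((l + 1 : ℕ) : ℝ) + 1) ≤ Real.log (2 * M) := by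
        apply Real.log_le_log (by positivity)
        have : ((n + l + 1 + 1 : ℕ) : ℝ) ≤ ((2 * M : ℕ) : ℝ) := by exact_mod_cast hm2
        push_cast at this ⊢
        linarith
      rw [div_le_iff₀ (by positivity)]
      have e : ((n + l + 1 : ℕ) : ℝ) - n = ((l + 1 : ℕ) : ℝ) := by push_cast; ring
      rw [e]
      have hl0 : (0 : ℝ) ≤ ((l + 1 : ℕ) : ℝ) := by positivity
      have k1 : (G - 1 - J p n) * 1 ≤ (G - 1 - J p n) * Real.log p :=
        mul_le_mul_of_nonneg_left hlp (by linarith)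
      have k2 : ((l + 1 : ℕ) : ℝ) * Real.log ((n : ℝ) + ((l + 1 : ℕ) : ℝ) + 1)
          ≤ ((l + 1 : ℕ) : ℝ) * Real.log (2 * M) := mul_le_mul_of_nonneg_left hle hl0
      linarith)
  refine le_trans h1 (le_of_eq ?_)
  field_simp

theorem exists_j0 (c : ℝ) (hc : 0 < c) : ∃ j0 : ℕ, ∀ j : ℕ, j0 ≤ j →
    4 * Real.log (2 * ((2 ^ j : ℕ) : ℝ)) + 4 ≤ c * 2 ^ j := by
  have h1 := tendsto_pow_const_div_const_pow_of_one_lt 1 (one_lt_two : (1 : ℝ) < 2)
  have h2 := (h1.eventually (gt_mem_nhds (show (0 : ℝ) < c / 16 by positivity)))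
  rw [Filter.eventually_atTop] at h2
  obtain ⟨j1, hj1⟩ := h2
  refine ⟨max j1 1, fun j hj => ?_⟩
  have hj2 := hj1 j (le_trans (le_max_left _ _) hj)
  have hj3 : 1 ≤ j := le_trans (le_max_right _ _) hj
  have hj4 : (1 : ℝ) ≤ j := by exact_mod_cast hj3
  rw [pow_one, div_lt_iff₀ (by positivity)] at hj2
  have hl2 : Real.log 2 ≤ 1 := by linarith [Real.log_two_lt_d9]
  have hl2' : 0 ≤ Real.log 2 := Real.log_nonneg (by norm_num)
  have e : Real.log (2 * ((2 ^ j : ℕ) : ℝ)) = ((j : ℝ) + 1) * Real.log 2 := by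
    push_cast
    rw [← pow_succ', Real.log_pow]
    push_cast; ring
  rw [e]
  nlinarith

/-- **Main theorem.** -/
theorem result (p : ℕ) (hp : p.Prime) (h4 : p % 4 = 1) :
    (∀ n : ℕ, a n ≠ 0 →
      (n : ℝ) / ((p : ℝ) - 1) - 2 * Real.log (n + 1) - 1 ≤ padicValInt p (a n)) ∧
    (∀ M : ℕ, 1 ≤ M → ∀ G : ℝ, 4 * Real.log (2 * M) + 4 ≤ G →
      (Set.ncard {n : ℕ | M ≤ n ∧ n < 2 * M ∧
          G ≤ |(padicValInt p (a n) : ℝ) - (n : ℝ) / ((p : ℝ) - 1)|} : ℝ)
        ≤ 1 + 2 * M * Real.log (2 * M) / G) ∧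
    (∀ ε : ℝ, 0 < ε → ∃ C : ℝ, ∀ N : ℕ, 2 ≤ N →
      (Set.ncard {n : ℕ | 1 ≤ n ∧ n ≤ N ∧
          ε ≤ |((p : ℝ) - 1) * (padicValInt p (a n) : ℝ) / n - 1|} : ℝ)
        ≤ C * (Real.log N) ^ 2) := by
  classical
  haveI : Fact p.Prime := ⟨hp⟩
  have hlp := log_p_ge_one (p := p) h4
  have hp1 : (1 : ℝ) < p := by exact_mod_cast hp.one_lt
  have hp0 : (0 : ℝ) < (p : ℝ) - 1 := by linarith
  refine ⟨?_, ?_, ?_⟩
  · intro n hn
    have h1 := lower_val h4 n hn
    have h2 := J_le (p := p) h4 n ((n : ℝ) + 1) le_rfl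
    linarith
  · intro M hM G hG
    have h1 := block h4 M hM G hG
    have e : {n : ℕ | M ≤ n ∧ n < 2 * M ∧
          G ≤ |(padicValInt p (a n) : ℝ) - (n : ℝ) / ((p : ℝ) - 1)|} = ↑(badSet p M G) := by
      ext n
      unfold badSet
      simp [and_assoc]
    rw [e, Set.ncard_coe_finset]
    exact h1
  · intro ε hε
    obtain ⟨j0, hj0⟩ := exists_j0 (ε / ((p : ℝ) - 1)) (by positivity)
    set C1 : ℝ := 2 ^ j0 + 1 + 2 * ((p : ℝ) - 1) / ε with hC1
    have hC1pos : 0 < C1 := by positivity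
    refine ⟨9 * C1, fun N hN => ?_⟩
    set S : Finset ℕ := (Finset.Icc 1 N).filter
      (fun n => ε ≤ |((p : ℝ) - 1) * (padicValInt p (a n) : ℝ) / n - 1|) with hS
    have e : {n : ℕ | 1 ≤ n ∧ n ≤ N ∧
          ε ≤ |((p : ℝ) - 1) * (padicValInt p (a n) : ℝ) / n - 1|} = ↑S := by
      ext n
      simp [hS, and_assoc]
    rw [e, Set.ncard_coe_finset]
    have hfib : S.card = ∑ j ∈ range (Nat.log 2 N + 1), (S.filter (fun n => Nat.log 2 n = j)).card := by
      apply Finset.card_eq_sum_card_fiberwise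
      intro n hn
      rw [Finset.mem_coe, hS, Finset.mem_filter, Finset.mem_Icc] at hn
      simp only [Finset.coe_range, Set.mem_Iio]
      exact Nat.lt_succ_of_le (Nat.log_mono_right hn.1.2)
    have hblock : ∀ j ∈ range (Nat.log 2 N + 1),
        ((S.filter (fun n => Nat.log 2 n = j)).card : ℝ) ≤ C1 * (Nat.log 2 N + 1) := by
      intro j hj
      rw [mem_range] at hj
      have hjR : (j : ℝ) + 1 ≤ (Nat.log 2 N : ℝ) + 1 := by
        have : j ≤ Nat.log 2 N := by omega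
        have : (j : ℝ) ≤ (Nat.log 2 N : ℝ) := by exact_mod_cast this
        linarith
      have hLN1 : (1 : ℝ) ≤ (Nat.log 2 N : ℝ) + 1 := by
        have : (0 : ℝ) ≤ (Nat.log 2 N : ℝ) := by positivity
        linarith
      by_cases hjj : j0 ≤ j
      · have hsub : S.filter (fun n => Nat.log 2 n = j) ⊆ badSet p (2 ^ j) (ε / ((p : ℝ) - 1) * 2 ^ j) := by
          intro n hn
          rw [Finset.mem_filter, hS, Finset.mem_filter, Finset.mem_Icc] at hn
          obtain ⟨⟨⟨hn1, hn2⟩, hn3⟩, hn4⟩ := hn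
          have hn5 : 2 ^ j ≤ n := by
            rw [← hn4]; exact Nat.pow_log_le_self 2 (by omega)
          have hn6 : n < 2 * 2 ^ j := by
            rw [← hn4, ← pow_succ']; exact Nat.lt_pow_succ_log_self one_lt_two n
          unfold badSet
          rw [Finset.mem_filter, Finset.mem_Ico]
          refine ⟨⟨hn5, hn6⟩, ?_⟩
          have hnR : (0 : ℝ) < n := by exact_mod_cast hn1
          have e1 : ((p : ℝ) - 1) * (padicValInt p (a n) : ℝ) / n - 1
              = (((p : ℝ) - 1) / n) * ((padicValInt p (a n) : ℝ) - (n : ℝ) / ((p : ℝ) - 1)) := by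
            field_simp
          rw [e1, abs_mul, abs_of_pos (by positivity : (0 : ℝ) < ((p : ℝ) - 1) / n)] at hn3
          have e2 : ε * n / ((p : ℝ) - 1)
              ≤ |(padicValInt p (a n) : ℝ) - (n : ℝ) / ((p : ℝ) - 1)| := by
            rw [div_le_iff₀ hp0]
            rw [div_mul_eq_mul_div, le_div_iff₀ hnR] at hn3
            linarith
          refine le_trans ?_ e2
          rw [div_mul_eq_mul_div]
          apply div_le_div_of_nonneg_right _ hp0.le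
          apply mul_le_mul_of_nonneg_left _ hε.le
          exact_mod_cast hn5
        have hb := block h4 (2 ^ j) (Nat.one_le_two_pow) (ε / ((p : ℝ) - 1) * 2 ^ j) (hj0 j hjj)
        have hc : ((S.filter (fun n => Nat.log 2 n = j)).card : ℝ)
            ≤ ((badSet p (2 ^ j) (ε / ((p : ℝ) - 1) * 2 ^ j)).card : ℝ) := by
          exact_mod_cast Finset.card_le_card hsub
        have hlogj : Real.log (2 * ((2 ^ j : ℕ) : ℝ)) ≤ (j : ℝ) + 1 := by
          push_cast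
          rw [← pow_succ', Real.log_pow]
          have hl2 : Real.log 2 ≤ 1 := by linarith [Real.log_two_lt_d9]
          have : (0 : ℝ) ≤ ((j + 1 : ℕ) : ℝ) := by positivity
          push_cast at this ⊢
          nlinarith
        have hval : 2 * ((2 ^ j : ℕ) : ℝ) * Real.log (2 * ((2 ^ j : ℕ) : ℝ)) / (ε / ((p : ℝ) - 1) * 2 ^ j)
            ≤ 2 * ((p : ℝ) - 1) / ε * (j + 1) := by
          have e3 : 2 * ((2 ^ j : ℕ) : ℝ) * Real.log (2 * ((2 ^ j : ℕ) : ℝ)) / (ε / ((p : ℝ) - 1) * 2 ^ j)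
              = 2 * ((p : ℝ) - 1) / ε * Real.log (2 * ((2 ^ j : ℕ) : ℝ)) := by
            push_cast
            field_simp
          rw [e3]
          exact mul_le_mul_of_nonneg_left hlogj (by positivity)
        have hj1 : (0 : ℝ) ≤ j := by positivity
        calc ((S.filter (fun n => Nat.log 2 n = j)).card : ℝ)
            ≤ 1 + 2 * ((p : ℝ) - 1) / ε * (j + 1) := by linarith
          _ ≤ C1 * (j + 1) := by
              rw [hC1]
              have : (0 : ℝ) < 2 ^ j0 := by positivity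
              nlinarith
          _ ≤ C1 * (Nat.log 2 N + 1) := mul_le_mul_of_nonneg_left hjR hC1pos.le
      · have hsub : S.filter (fun n => Nat.log 2 n = j) ⊆ Finset.Ico (2 ^ j) (2 * 2 ^ j) := by
          intro n hn
          rw [Finset.mem_filter, hS, Finset.mem_filter, Finset.mem_Icc] at hn
          obtain ⟨⟨⟨hn1, hn2⟩, hn3⟩, hn4⟩ := hn
          rw [Finset.mem_Ico]
          constructor
          · rw [← hn4]; exact Nat.pow_log_le_self 2 (by omega)
          · rw [← hn4, ← pow_succ']; exact Nat.lt_pow_succ_log_self one_lt_two n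
        have hcard := Finset.card_le_card hsub
        rw [Nat.card_Ico] at hcard
        have h2 : 2 * 2 ^ j - 2 ^ j ≤ 2 ^ j0 := by
          have : 2 ^ j ≤ 2 ^ j0 := Nat.pow_le_pow_right (by norm_num) (by omega)
          omega
        have h3 : ((S.filter (fun n => Nat.log 2 n = j)).card : ℝ) ≤ 2 ^ j0 := by
          exact_mod_cast le_trans hcard h2
        have h5 : (2 : ℝ) ^ j0 ≤ C1 := by
          rw [hC1]
          have : 0 ≤ 2 * ((p : ℝ) - 1) / ε := by positivity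
          linarith
        nlinarith
    have hsum : (S.card : ℝ) ≤ (Nat.log 2 N + 1) * (C1 * (Nat.log 2 N + 1)) := by
      rw [hfib]
      push_cast
      calc ∑ j ∈ range (Nat.log 2 N + 1), ((S.filter (fun n => Nat.log 2 n = j)).card : ℝ)
          ≤ ∑ j ∈ range (Nat.log 2 N + 1), C1 * ((Nat.log 2 N : ℝ) + 1) := Finset.sum_le_sum hblock
        _ = _ := by rw [Finset.sum_const, Finset.card_range, nsmul_eq_mul]; push_cast; ring
    have hL : (Nat.log 2 N : ℝ) + 1 ≤ 3 * Real.log N := by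
      have h1 : 2 ^ (Nat.log 2 N) ≤ N := Nat.pow_log_le_self 2 (by omega)
      have h2 : ((2 : ℝ)) ^ (Nat.log 2 N) ≤ N := by exact_mod_cast h1
      have h3 := Real.log_le_log (by positivity) h2
      rw [Real.log_pow] at h3
      have h5 := Real.log_two_gt_d9
      have h6 : Real.log 2 ≤ Real.log N := Real.log_le_log (by norm_num) (by exact_mod_cast hN)
      have h7 : (0 : ℝ) ≤ (Nat.log 2 N : ℝ) := by positivity
      nlinarith
    have hL0 : (0 : ℝ) ≤ (Nat.log 2 N : ℝ) + 1 := by positivity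
    have hsq : ((Nat.log 2 N : ℝ) + 1) ^ 2 ≤ (3 * Real.log N) ^ 2 := pow_le_pow_left₀ hL0 hL 2
    nlinarith

end Pool.Agent.Results.MP_054fa1_nt.AlmostAllIndices
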